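import Pool.Agent.H31.CN.T5

/-!
# (PRO): the proportion for one field
-/

set_option autoImplicit false

open NumberField

namespace Pool.Agent.H69.CN

open Pool.Agent.H31.CN

theorem card_chars (G : Type) [CommGroup G] [Fintype G] :
    Nat.card (G →* ℂˣ) = Fintype.card G := by
  have : NeZero (Monoid.exponent G) := ⟨Monoid.exponent_ne_zero_of_finite⟩
  rw [CommGroup.card_monoidHom_of_hasEnoughRootsOfUnity G ℂ, Nat.card_eq_fintype_card]

theorem pf_PRO (hCG : T_CG) (hCSG : T_CSG) (hUNF : T_UNF) : T_PRO := by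
  classical
  intro D K _ _ hD hD4 hsq hfr hdisc
  have hh : 0 < classNumber K := classNumber_pos K
  have hcard : Nat.card (ClassGroup (𝓞 K) →* ℂˣ) = classNumber K := card_chars _
  haveI hfin : Finite (ClassGroup (𝓞 K) →* ℂˣ) := by
    refine Nat.finite_of_card_ne_zero ?_
    rw [hcard]
    exact hh.ne'
  have hR : (0 : ℝ) < classNumber K := by exact_mod_cast hh
  refine ⟨div_nonneg (Nat.cast_nonneg _) hR.le, ?_, ?_⟩
  · unfold prp
    rw [div_le_one hR, ← hcard]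
    have h1 : Nat.card {ψ : ClassGroup (𝓞 K) →* ℂˣ // NV K ψ} ≤
        Nat.card (ClassGroup (𝓞 K) →* ℂˣ) :=
      Nat.card_le_card_of_injective Subtype.val Subtype.val_injective
    exact_mod_cast h1
  · intro S c hS
    obtain ⟨Q, L, hQ, hact, hQ1, hL, hvan⟩ := hCG D K hD hD4 hsq hfr hdisc
    have h1 := hCSG (ClassGroup (𝓞 K)) (fun g => Zc S c (Q g))
    have h2 := hUNF D (by omega) S c hS (ClassGroup (𝓞 K)) Q hQ hact
    rw [hQ1] at h1
    have h3 : (Nat.card {ψ : ClassGroup (𝓞 K) →* ℂˣ //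
        ∑ g, ((ψ g : ℂˣ) : ℂ) * ((Zc S c (Q g) : ℝ) : ℂ) ≠ 0} : ℝ) ≤
        (Nat.card {ψ : ClassGroup (𝓞 K) →* ℂˣ // NV K ψ} : ℝ) := by
      have h4 : Nat.card {ψ : ClassGroup (𝓞 K) →* ℂˣ //
          ∑ g, ((ψ g : ℂˣ) : ℂ) * ((Zc S c (Q g) : ℝ) : ℂ) ≠ 0} ≤
          Nat.card {ψ : ClassGroup (𝓞 K) →* ℂˣ // NV K ψ} := by
        refine Nat.card_le_card_of_injective (fun ψ => ⟨ψ.1, L ψ.1, hL ψ.1, ?_⟩) ?_
        · intro h5
          apply ψ.2
          have h6 := hvan S c hS ψ.1 h5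
          rw [finsum_eq_sum_of_fintype] at h6
          exact h6
        · intro a b hab
          exact Subtype.ext (congrArg (fun x => x.1) hab)
      exact_mod_cast h4
    have h5 : (Fintype.card (ClassGroup (𝓞 K)) : ℝ) = classNumber K := rfl
    rw [h5] at h1
    set Z := Zc S c (1, 1, ((D : ℤ) + 1) / 4) with hZ
    set W := 2 * ∑ m₁ ∈ S, ∑ m₂ ∈ S, c m₁ * c m₂ * Uf m₁ m₂ D with hW
    set A : ℝ := ∑ g, Zc S c (Q g) ^ 2 with hA
    have hA0 : 0 ≤ A := Finset.sum_nonneg fun _ _ => sq_nonneg _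
    set N : ℝ := (Nat.card {ψ : ClassGroup (𝓞 K) →* ℂˣ // NV K ψ} : ℝ) with hN
    have hN0 : 0 ≤ N := Nat.cast_nonneg _
    have h6 : ((classNumber K : ℝ) * Z) ^ 2 ≤ N * (classNumber K * W) :=
      h1.trans ((mul_le_mul_of_nonneg_right h3 (mul_nonneg hR.le hA0)).trans
        (mul_le_mul_of_nonneg_left (mul_le_mul_of_nonneg_left h2 hR.le) hN0))
    have h7 : prp K = N / classNumber K := rfl
    rw [h7, div_mul_eq_mul_div, le_div_iff₀ hR]
    have h8 : (Z ^ 2 * (classNumber K : ℝ)) * classNumber K ≤ (N * W) * classNumber K := by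
      calc (Z ^ 2 * (classNumber K : ℝ)) * classNumber K = ((classNumber K : ℝ) * Z) ^ 2 := by ring
        _ ≤ _ := h6
        _ = _ := by ring
    exact le_of_mul_le_mul_right h8 hR

end Pool.Agent.H69.CN
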