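import Pool.Agent.H31.CN.T6

/-!
# (CH2): the number of real characters of a finite abelian group
-/

set_option autoImplicit false

namespace Pool.Agent.H69.CN

theorem card_chars' (G : Type) [CommGroup G] [Finite G] : Nat.card (G →* ℂˣ) = Nat.card G := by
  have : NeZero (Monoid.exponent G) := ⟨Monoid.exponent_ne_zero_of_finite⟩
  exact CommGroup.card_monoidHom_of_hasEnoughRootsOfUnity G ℂ

theorem pf_CH2 : Pool.Agent.H31.CN.T_CH2 := by
  classical
  intro G _ _ x J hx
  refine ⟨?_, card_chars' G⟩
  set f : G →* G := powMonoidHom 2 with hf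
  set H : Subgroup G := f.range with hH
  -- the real characters are characters of the quotient
  have h1 : Nat.card {ψ : G →* ℂˣ // ψ * ψ = 1} ≤ Nat.card (G ⧸ H) := by
    rw [← card_chars' (G ⧸ H)]
    haveI : Finite ((G ⧸ H) →* ℂˣ) := by
      refine Nat.finite_of_card_ne_zero ?_
      rw [card_chars']
      exact Nat.card_pos.ne'
    have hker : ∀ ψ : {ψ : G →* ℂˣ // ψ * ψ = 1}, ∀ h ∈ H, ψ.1 h = 1 := by
      rintro ⟨ψ, hψ⟩ h ⟨g, rfl⟩
      have h2 := DFunLike.congr_fun hψ g
      show ψ (g ^ 2) = 1
      rw [map_pow, sq]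
      exact h2
    refine Nat.card_le_card_of_injective (fun ψ => QuotientGroup.lift H ψ.1 (hker ψ)) ?_
    intro ψ ψ' he
    apply Subtype.ext
    ext g : 1
    have h2 := DFunLike.congr_fun he (QuotientGroup.mk g : G ⧸ H)
    simpa using h2
  -- the image is large
  have h2 : J + 1 ≤ Nat.card H := by
    have hinj : Function.Injective (fun j : Fin (J + 1) => (⟨f (x ^ (j : ℕ)), ⟨_, rfl⟩⟩ : H)) := by
      have key : ∀ i j : ℕ, i < j → j ≤ J → f (x ^ i) ≠ f (x ^ j) := by
        intro i j hij hj he
        have h3 : (x ^ i) ^ 2 = (x ^ j) ^ 2 := he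
        rw [← pow_mul, ← pow_mul] at h3
        have h4 : x ^ (2 * (j - i)) = 1 := by
          have h5 : x ^ (j * 2) = x ^ (i * 2) * x ^ (2 * (j - i)) := by
            rw [← pow_add]
            congr 1
            omega
          rw [← h3] at h5
          exact (mul_eq_left.1 h5.symm)
        exact hx (j - i) (by omega) (by omega) h4
      intro i j hij
      have h3 : f (x ^ (i : ℕ)) = f (x ^ (j : ℕ)) := congrArg Subtype.val hij
      rcases lt_trichotomy (i : ℕ) (j : ℕ) with h4 | h4 | h4
      · exact absurd h3 (key _ _ h4 (by omega))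
      · exact Fin.ext h4
      · exact absurd h3.symm (key _ _ h4 (by omega))
    have := Nat.card_le_card_of_injective _ hinj
    rwa [Nat.card_fin] at this
  calc (J + 1) * Nat.card {ψ : G →* ℂˣ // ψ * ψ = 1} ≤ Nat.card H * Nat.card (G ⧸ H) :=
        Nat.mul_le_mul h2 h1
    _ = Nat.card G := by
        rw [mul_comm]
        exact (Subgroup.card_eq_card_quotient_mul_card_subgroup H).symm

end Pool.Agent.H69.CN
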